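import Pool.Agent.TGC.Main2

/-!
# Colour commutative graded algebras and the first Tachikawa conjecture

Let `k` be a field, `Γ` an abelian group with a homomorphism `dg : Γ → ℤ`, and
`ε : Γ × Γ → k` a commutation factor, that is
`ε(α + β, γ) = ε(α, γ) ε(β, γ)` and `ε(α, β) ε(β, α) = 1`.  Let `A = ⊕ A_γ` be a finite
dimensional `Γ`-graded `k`-algebra which is generated by homogeneous elements `x_i ∈ A_(g_i)` with
`dg(g_i) > 0` and `x_i x_j = ε(g_i, g_j) x_j x_i` for all `i, j`, and let `A_γ = 0` for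
`dg(γ) > s`.  Let `H(n)` be the dimension of the sum of the `A_γ` with `dg(γ) = n`.  Suppose that
the characteristic of `k` is not `2`, or `s ≤ 8`, or the polynomial `∑ H(n) X^n` is squarefree, or
`H(n) = H(s - n)` for all `n ≤ s`.
If `Ext^i_A(I, A) = 0` for all finitely generated injective modules `I` and
`1 ≤ i ≤ 3 s + 2`, then `A` is self-injective.

Examples: quotients of exterior algebras by homogeneous ideals, graded commutative algebras
(with the usual signs), quotients of quantum affine spaces and quantum complete intersections.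
-/

set_option autoImplicit false

universe u v w

namespace Pool.Agent.Results.MP_95779f_al.ColourCommutative

open CategoryTheory Polynomial

/-- The first Tachikawa conjecture for graded algebras with colour commuting generators. -/
theorem result (k A : Type u) (Γ : Type v) (ι : Type w) [Field k] [Ring A] [Algebra k A]
    [Module.Finite k A] [AddCommGroup Γ] [DecidableEq Γ]
    (ε : Γ → Γ → k) (hε : ∀ α β γ, ε (α + β) γ = ε α γ * ε β γ)
    (hε' : ∀ α β, ε α β * ε β α = 1) (dg : Γ →+ ℤ)
    (𝒜 : Γ → Submodule k A) [GradedAlgebra 𝒜] (x : ι → A) (g : ι → Γ)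
    (hx : ∀ i, x i ∈ 𝒜 (g i)) (hd : ∀ i, 0 < dg (g i))
    (hgen : Algebra.adjoin k (Set.range x) = ⊤)
    (hcomm : ∀ i j, x i * x j = ε (g i) (g j) • (x j * x i)) (s : ℕ)
    (hs : ∀ γ, (s : ℤ) < dg γ → 𝒜 γ = ⊥) (H : ℕ → ℕ)
    (hH : ∀ n : ℕ, H n = Module.finrank k (⨆ (γ : Γ) (_ : dg γ = n), 𝒜 γ : Submodule k A))
    (hor : (2 : k) ≠ 0 ∨ s ≤ 8 ∨
      Squarefree (∑ n ∈ Finset.range (s + 1), (H n : ℤ[X]) * X ^ n) ∨ ∀ n ≤ s, H n = H (s - n))
    (hv : ∀ I : ModuleCat.{u} A, Module.Finite A I → Module.Injective A I → ∀ i : ℕ, 0 < i →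
      i ≤ 3 * s + 2 → Subsingleton (Abelian.Ext.{u} I (ModuleCat.of A A) i)) :
    Module.Injective A A :=
  Pool.Agent.TGC.main_gen_any 𝒜 ε hε hε' dg x g hx hd hgen hcomm s hs H hH hor hv

end Pool.Agent.Results.MP_95779f_al.ColourCommutative
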