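import Pool.Agent.Helper16.TN.Main

/-!
# Elementary graded algebras and the first Tachikawa conjecture

Let `k` be a field and `A = A_0 + ... + A_s` a finite dimensional graded `k`-algebra, not
necessarily commutative, with `A_0` a product of `m` copies of `k` (primitive idempotents
`e_1, ..., e_m`).  Let `C(t)` be the graded Cartan matrix, with entries
`C(t)_{ab} = sum_n dim (e_a A_n e_b) t^n`, and let `C*(t) = t^s C(1/t)`.
If `Ext^i_A(I, A) = 0` for all finitely generated injective `I` and `1 ≤ i ≤ (m + 2) s + 1`, then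
there is a matrix `G(t)` of polynomials with nonnegative coefficients such that
`det C(t) G(t) = C*(t) adj(C(t)^T) C*(t)`, and `det C(t)` has leading coefficient `1` or `-1`.
-/

set_option autoImplicit false

universe u

namespace Pool.Agent.Results.MP_95779f_al.ElementaryGraded

open CategoryTheory Polynomial

/-- Elementary graded algebras `A` with `Ext^i_A(D A, A) = 0`: divisibility and positivity of
`C* adj(C^T) C* / det C`, and the leading coefficient of the graded Cartan determinant. -/
theorem result (k A : Type u) [Field k] [Ring A] [Algebra k A] [Module.Finite k A]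
    (𝒜 : ℕ → Submodule k A) [GradedAlgebra 𝒜] (m : ℕ) (e : Fin m → A)
    (he : CompleteOrthogonalIdempotents e) (hne : ∀ a, e a ≠ 0)
    (h0 : 𝒜 0 = Submodule.span k (Set.range e)) (s : ℕ) (hs : ∀ i, s < i → 𝒜 i = ⊥)
    (C Cst : Matrix (Fin m) (Fin m) ℤ[X])
    (hC : ∀ a c, C a c = ∑ n ∈ Finset.range (s + 1),
      (Module.finrank k ((𝒜 n).map (LinearMap.mulLeftRight k (e a, e c))) : ℤ[X]) * X ^ n)
    (hCst : ∀ a c, Cst a c = ∑ n ∈ Finset.range (s + 1),
      (Module.finrank k ((𝒜 n).map (LinearMap.mulLeftRight k (e a, e c))) : ℤ[X]) * X ^ (s - n))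
    (hv : ∀ I : ModuleCat.{u} A, Module.Finite A I → Module.Injective A I →
      ∀ i : ℕ, 0 < i → i ≤ (m + 2) * s + 1 →
        Subsingleton (Abelian.Ext.{u} I (ModuleCat.of A A) i)) :
    (∃ G : Matrix (Fin m) (Fin m) ℤ[X], (∀ a c n, 0 ≤ (G a c).coeff n) ∧
      C.det • G = Cst * C.transpose.adjugate * Cst) ∧ IsUnit C.det.leadingCoeff := by
  have h : Pool.Agent.Helper16.TN.IsEl 𝒜 e s := ⟨he, hne, h0, hs⟩
  have h1 := Pool.Agent.Helper16.TN.main_N h (by rw [Fintype.card_fin]; exact hv) C Cst hC hCst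
  refine ⟨⟨Pool.Agent.Helper16.TN.Gm (Pool.Agent.Helper16.TN.isPB h) s, fun a c n => ?_, h1.1⟩,
    h1.2⟩
  rw [Pool.Agent.Helper16.TN.coeff_Gm]
  exact Int.natCast_nonneg _

end Pool.Agent.Results.MP_95779f_al.ElementaryGraded
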