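import Pool.Agent.TGA.Main

/-!
# Graded algebras over a local algebra `A_0` and modules `M` with `Ext^i_A(M, M^*) = 0`

Let `k` be a field of characteristic different from `2`, let `A = A_0 + ... + A_s` be a finite
dimensional commutative graded `k`-algebra such that `A_0` is local with maximal ideal `m_0`, let
`c ≥ 2`, and suppose that
* `m_0` is principal, or
* `m_0 ^ 3 = 0` and `c ≥ 4`, or
* `m_0 = I ⊕ J` for nonzero ideals `I`, `J`, and `c ≥ 5`, or
* every finite dimensional `A_0`-module `U` with `Ext^i(U, U^*) = 0` for `1 ≤ i ≤ c` is free.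

Let `M = M_0 + ... + M_t` be a nonzero finite dimensional graded `A`-module with
`Ext^i_A(M, M^*) = 0` for `1 ≤ i ≤ 2 t + s + c`, where `M^* = Hom_k(M, k)`.
Then `dim M ≥ dim A`, with equality only if `M` is isomorphic to `A`.

For `M = A^*`, where `M^* = A`, this is the first Tachikawa conjecture for these algebras
(`Pool.Agent.TGA.main_alg`, `Pool.Agent.TGA.main_tc`).
-/

set_option autoImplicit false

universe u

namespace Pool.Agent.Results.MP_95779f_al.GradedOverLocal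

open CategoryTheory Pool.Agent.TGA

theorem result (k A M : Type u) [Field k] [CommRing A] [Algebra k A] [Module.Finite k A]
    [AddCommGroup M] [Module k M] [Module A M] [IsScalarTower k A M] [Module.Finite k M]
    [Nontrivial M]
    (h2 : (2 : k) ≠ 0) (𝒜 : ℕ → Submodule k A) [GradedAlgebra 𝒜]
    (A₀ : Subalgebra k A) (hA₀ : ∀ a, a ∈ A₀ ↔ a ∈ 𝒜 0) [IsLocalRing A₀] (c : ℕ)
    (hc : ((IsLocalRing.maximalIdeal A₀).IsPrincipal ∧ 2 ≤ c) ∨
      (IsLocalRing.maximalIdeal A₀ ^ 3 = ⊥ ∧ 4 ≤ c) ∨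
      ((∃ I J : Ideal A₀, I ≠ ⊥ ∧ J ≠ ⊥ ∧ I ⊓ J = ⊥ ∧
        I ⊔ J = IsLocalRing.maximalIdeal A₀) ∧ 5 ≤ c) ∨
      ((∀ (U : Type u) [AddCommGroup U] [Module k U] [Module A₀ U] [IsScalarTower k A₀ U]
          [Module.Finite k U],
        (∀ i : ℕ, 0 < i → i ≤ c →
          Subsingleton (Abelian.Ext.{u} (ModuleCat.of A₀ U) (ModuleCat.of A₀ (Du k U)) i)) →
        Module.Free A₀ U) ∧ 2 ≤ c)) (s : ℕ)
    (hs : ∀ i, s < i → 𝒜 i = ⊥) (ℳ : ℕ → Submodule k M) [DirectSum.Decomposition ℳ]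
    (hsm : ∀ (i j : ℕ) (a : A) (m : M), a ∈ 𝒜 i → m ∈ ℳ j → a • m ∈ ℳ (i + j)) (t : ℕ)
    (ht : ∀ i, t < i → ℳ i = ⊥)
    (hv : ∀ i : ℕ, 0 < i → i ≤ 2 * t + s + c →
      Subsingleton (Abelian.Ext.{u} (ModuleCat.of A M) (ModuleCat.of A (Du k M)) i)) :
    Module.finrank k A ≤ Module.finrank k M ∧
      (Module.finrank k A = Module.finrank k M → Nonempty (M ≃ₗ[A] A)) :=
  main_mod h2 𝒜 A₀ hA₀ c hc s hs ℳ hsm t ht hv

end Pool.Agent.Results.MP_95779f_al.GradedOverLocal
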