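import Pool.Agent.TSP.Main

/-!
# The first Tachikawa conjecture for specialisations of graded commutative algebras

Let `V` be a discrete valuation ring, `R` a commutative `V`-algebra which is a finite free
`V`-module, and `L` a field containing `V`, of characteristic different from `2`, such that
`L ⊗ R` is a finite product of graded `L`-algebras `B_j` with `(B_j)_0 = L`, all degrees at most `s`.
Let `π` be a nonzero element of the maximal ideal of `V` and `A = R / (π)`.  If
`Ext^i_A(I, A) = 0` for all finitely generated injective `A`-modules `I` and `1 ≤ i ≤ 3 s + 2`, then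
`A` is self-injective.
-/

set_option autoImplicit false

universe u

namespace Pool.Agent.Results.MP_95779f_al.GradedSpecialisations

open CategoryTheory TensorProduct

/-- Tachikawa's first conjecture for the special fibres (more generally, the quotients by a nonzero
non-unit `π` of `V`) of finite free commutative algebras `R` over a discrete valuation ring `V` whose
generic fibre becomes, over a field `L` containing `V` with `char L ≠ 2`, a finite product of graded
algebras with degree zero part `L`. -/
theorem result (V R L : Type u) [CommRing V] [IsDomain V] [IsDiscreteValuationRing V]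
    [CommRing R] [Algebra V R] [Module.Finite V R] [Module.Free V R] [Field L] [Algebra V L]
    (hL : Function.Injective (algebraMap V L)) (h2 : (2 : L) ≠ 0) {m : ℕ}
    (B : Fin m → Type u) [∀ j, CommRing (B j)] [∀ j, Algebra L (B j)]
    (e : L ⊗[V] R ≃ₐ[L] ∀ j, B j) (𝒜 : ∀ j, ℕ → Submodule L (B j)) [∀ j, GradedAlgebra (𝒜 j)]
    (h0 : ∀ j, ∀ a ∈ 𝒜 j 0, ∃ c : L, a = algebraMap L (B j) c) (s : ℕ)
    (hs : ∀ j i, s < i → 𝒜 j i = ⊥) (π : V) (hπ : π ≠ 0) (hπ' : ¬ IsUnit π)
    (hv : ∀ I : ModuleCat.{u} (R ⧸ Ideal.span {algebraMap V R π}),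
      Module.Finite (R ⧸ Ideal.span {algebraMap V R π}) I →
      Module.Injective (R ⧸ Ideal.span {algebraMap V R π}) I →
        ∀ i : ℕ, 0 < i → i ≤ 3 * s + 2 → Subsingleton
          (Abelian.Ext.{u} I (ModuleCat.of _ (R ⧸ Ideal.span {algebraMap V R π})) i)) :
    Module.Injective (R ⧸ Ideal.span {algebraMap V R π}) (R ⧸ Ideal.span {algebraMap V R π}) :=
  Pool.Agent.TSP.main hL h2 B e 𝒜 h0 s hs π hπ hπ' hv

end Pool.Agent.Results.MP_95779f_al.GradedSpecialisations
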